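import Pool.Agent.W440.WH.ONE

/-!
DEL: the general shift.
-/

set_option autoImplicit false

namespace Pool.Agent.W440.WH

open Pool.Agent.W181.WH

theorem Dch_mem {B : Type} [Ring B] [Algebra ℂ B] {V : ℕ → ℕ → Submodule ℂ B} (hV : Fil V)
    (p T : ℕ → B) (hp : ∀ k, p k ∈ V 0 1) (hT : ∀ j, T j ∈ V 0 2) :
    ∀ l k, Dch p T l k ∈ V 0 k := by
  have hone : ∀ k, (1 : B) ∈ V 0 k := fun k => hV.mono 0 0 0 k le_rfl (Nat.zero_le k) hV.one
  have key : ∀ l, (∀ k, Dch p T l k ∈ V 0 k) ∧ (∀ k, Dch p T (l + 1) k ∈ V 0 k) := by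
    intro l
    induction l with
    | zero =>
      refine ⟨fun k => ?_, fun k => ?_⟩
      · rcases k with _ | k
        · rw [Dch]; exact hone _
        · rw [Dch]; exact Submodule.zero_mem _
      · rcases k with _ | _ | k
        · rw [Dch]; exact hone _
        · rw [Dch]; exact hp 1
        · rw [Dch]; exact Submodule.zero_mem _
    | succ l ih =>
      refine ⟨ih.2, fun k => ?_⟩
      rcases k with _ | _ | k
      · rw [Dch]; exact hone _
      · rw [Dch]; exact Submodule.add_mem _ (ih.2 1) (hp _)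
      · rw [Dch]
        refine Submodule.add_mem _ (Submodule.add_mem _ (ih.2 _) ?_) ?_
        · have h1 := hV.mul 0 1 0 (k + 1) _ _ (hp (l + 2)) (ih.2 (k + 1))
          have e1 : 1 + (k + 1) = k + 2 := by omega
          rw [e1] at h1
          exact h1
        · have h1 := hV.mul 0 2 0 k _ _ (hT (l + 1)) (ih.1 k)
          have e1 : 2 + k = k + 2 := by omega
          rw [e1] at h1
          exact h1
  exact fun l => (key l).1

theorem t_del (hO : S_ONE) (hC : S_COEF) (hM : S_COMM) (hR : S_REL) (hV : S_VMUL) : S_DEL := by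
  intro N B _ _ R m g hg δ
  obtain ⟨hT, hTs, hth⟩ := hR N B R
  have hF := fil_of hV R m
  obtain ⟨-, -, -, vθ, vp, vT, -⟩ := hV N B R m
  let D : Fin (N + 1) → B := fun i => Dch R.p R.T (N + 1) ((i : ℕ) + 1)
  have hD : ∀ i j, Commute (D i) (D j) := fun i j => hM B R.p R.T hT _ _ _
  have hDmem : ∀ i : Fin (N + 1), D i ∈ R.V m 0 ((i : ℕ) + 1) :=
    fun i => Dch_mem hF R.p R.T vp vT _ _
  have hZmem : R.θ (MvPolynomial.X m) ∈ R.V m 0 1 := by
    have h1 := vθ (MvPolynomial.X m)
    rw [MvPolynomial.totalDegree_X] at h1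
    exact h1
  have hone : (1 : B) ∈ R.V m 0 1 := hF.mono 0 0 0 1 le_rfl (Nat.zero_le _) hF.one
  obtain ⟨w, hw⟩ : ∃ w, w = (N + 1).choose ((m : ℕ) + 1) := ⟨_, rfl⟩
  rw [← hw]
  show evalN (R.θ (MvPolynomial.X m)) D _ ∈ _
  rw [evalN_eq]
  induction δ with
  | zero =>
    rw [Finset.prod_range_zero, ← MvPolynomial.C_1, Ph_C, one_smul, zero_mul]
    exact hF.one
  | succ δ ih =>
    rw [Finset.prod_range_succ, Ph_mul _ _ hD]
    generalize hx : Ph (R.θ (MvPolynomial.X m)) D 1 (∏ i ∈ Finset.range δ, shZ g i) = x at ih ⊢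
    clear hx
    unfold Pool.Agent.W181.WH.Rep.V at ih
    induction ih using Submodule.span_induction with
    | zero =>
      rw [Ph_zero_arg]
      exact Submodule.zero_mem _
    | add x y _ _ hx hy =>
      rw [Ph_add_arg]
      exact Submodule.add_mem _ hx hy
    | smul c x _ hx =>
      rw [Ph_smul_arg]
      exact Submodule.smul_mem _ _ hx
    | mem x hx =>
      obtain ⟨P, S, hPS, hS, rfl⟩ := hx
      have hcomm : R.θ (MvPolynomial.X m) * (R.θ P * R.τ S) =
          (R.θ P * R.τ S) * (R.θ (MvPolynomial.X m) - algebraMap ℂ B (S m : ℂ)) := by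
        have h1 := hth m S
        have h2 : R.τ S * (R.θ (MvPolynomial.X m) - algebraMap ℂ B (S m : ℂ)) =
            R.θ (MvPolynomial.X m) * R.τ S := by
          rw [mul_sub, h1, add_mul, ← Algebra.commutes (S m : ℂ) (R.τ S)]
          abel
        rw [mul_assoc (R.θ P), h2, ← mul_assoc, ← mul_assoc, ← map_mul, ← map_mul, mul_comm P]
      rw [Ph_transfer _ _ _ D hcomm, Ph_shZ _ _ hD]
      have hmem : ∀ δ', δ' ≤ S m → R.θ P * R.τ S ∈ R.V m δ' (δ * w) := by
        intro δ' hδ'
        exact Submodule.subset_span ⟨P, S, hPS, hδ', rfl⟩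
      have hww : (δ + 1) * w = δ * w + w := by ring
      rw [hww]
      rcases Nat.eq_or_lt_of_le hS with h | h
      · have h1 : R.θ (MvPolynomial.X m) - algebraMap ℂ B (S m : ℂ) + algebraMap ℂ B (δ : ℂ) =
            R.θ (MvPolynomial.X m) := by
          rw [← h]
          abel
        rw [h1]
        have h2 := hO N B R m g hg
        rw [← hw] at h2
        have h3 : Ph (R.θ (MvPolynomial.X m)) D 1 g ∈ R.V m 1 w := by
          rw [← evalN_eq]
          exact h2
        exact hF.mul δ (δ * w) 1 w _ _ (hmem δ hS) h3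
      · have h1 : R.θ (MvPolynomial.X m) - algebraMap ℂ B (S m : ℂ) + algebraMap ℂ B (δ : ℂ) ∈
            R.V m 0 1 := by
          refine Submodule.add_mem _ (Submodule.sub_mem _ hZmem ?_) ?_
          · rw [Algebra.algebraMap_eq_smul_one]
            exact Submodule.smul_mem _ _ hone
          · rw [Algebra.algebraMap_eq_smul_one]
            exact Submodule.smul_mem _ _ hone
        have h2 : Ph (R.θ (MvPolynomial.X m) - algebraMap ℂ B (S m : ℂ) + algebraMap ℂ B (δ : ℂ))
            D 1 g ∈ R.V m 0 w := by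
          rw [Ph_eq_sum]
          refine Submodule.sum_mem _ fun d hd => Submodule.smul_mem _ _ ?_
          rw [mul_one]
          have h3 := pow_mem_fil hF h1 (d none)
          have h4 := (Cg.ofFn hF (N + 1) D D (fun i => (i : ℕ) + 1) (fun i => d (some i))
            (fun i => ⟨hDmem i, hDmem i, by rw [sub_self]; exact Submodule.zero_mem _⟩)).l
          have h5 := hF.mul 0 _ 0 _ _ _ h3 h4
          refine hF.mono _ _ _ _ (by omega) ?_ h5
          have h6 := hg.1 d hd
          rw [← hw] at h6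
          omega
        have h3 := hF.mul (δ + 1) (δ * w) 0 w _ _ (hmem (δ + 1) h) h2
        exact h3

end Pool.Agent.W440.WH
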