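import Pool.Agent.W181.WH.Stm

/-!
HOLI: holomorphic dependence on parameters.
-/

set_option autoImplicit false

namespace Pool.Agent.W440.WH

open Pool.Agent.W181.WH MeasureTheory Filter Topology

theorem t_holi : S_HOLI := by
  intro n k F hdiff hcont hbd x₀
  obtain ⟨g, hg, hgb⟩ := hbd (‖x₀‖ + 2)
  have hF' : ∀ α t, HasFDerivAt (fun α => F α t) (fderiv ℂ (fun α => F α t) α) α :=
    fun α t => (hdiff t α).hasFDerivAt
  have hg0 : ∀ t, 0 ≤ g t := fun t =>
    (norm_nonneg _).trans (hgb x₀ t (by linarith [norm_nonneg x₀]))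
  have hbound : ∀ t, ∀ α ∈ Metric.ball x₀ 1, ‖fderiv ℂ (fun α => F α t) α‖ ≤ g t := by
    intro t α hα
    have hα1 : ‖α‖ ≤ ‖x₀‖ + 1 := by
      have h1 : ‖α - x₀‖ < 1 := by
        rw [← dist_eq_norm]
        exact Metric.mem_ball.1 hα
      have h2 : ‖α‖ ≤ ‖α - x₀‖ + ‖x₀‖ := by
        simpa using norm_add_le (α - x₀) x₀
      linarith
    refine ContinuousLinearMap.opNorm_le_of_unit_norm (hg0 t) fun v hv => ?_
    have h1 : HasDerivAt (fun ζ : ℂ => F (α + ζ • v) t) (fderiv ℂ (fun α => F α t) α v) 0 :=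
      (hF' α t).hasLineDerivAt v
    rw [← h1.deriv]
    have hd : Differentiable ℂ (fun ζ : ℂ => F (α + ζ • v) t) := by
      have h2 : Differentiable ℂ (fun ζ : ℂ => α + ζ • v) :=
        (differentiable_const α).add (differentiable_id.smul_const v)
      exact (hdiff t).comp h2
    have h3 := Complex.norm_deriv_le_of_forall_mem_sphere_norm_le (c := 0) (R := 1) (C := g t)
      (f := fun ζ : ℂ => F (α + ζ • v) t) one_pos hd.diffContOnCl (by
        intro z hz
        apply hgb
        have h4 : ‖z‖ = 1 := by simpa using hz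
        calc ‖α + z • v‖ ≤ ‖α‖ + ‖z • v‖ := norm_add_le _ _
          _ = ‖α‖ + 1 := by rw [norm_smul, h4, hv, mul_one]
          _ ≤ ‖x₀‖ + 2 := by linarith)
    simpa using h3
  have hmeas : ∀ α, AEStronglyMeasurable (F α) volume := fun α => (hcont α).aestronglyMeasurable
  have hint : Integrable (F x₀) := by
    refine hg.mono' (hmeas x₀) ?_
    filter_upwards with t
    exact hgb x₀ t (by linarith)
  have hpart : ∀ v : Fin n → ℂ,
      AEStronglyMeasurable (fun t => fderiv ℂ (fun α => F α t) x₀ v) volume := by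
    intro v
    refine aestronglyMeasurable_of_tendsto_ae atTop
      (f := fun (j : ℕ) t => (j : ℂ) • (F (x₀ + ((j : ℂ))⁻¹ • v) t - F x₀ t)) ?_ ?_
    · intro j
      exact ((hmeas _).sub (hmeas _)).const_smul (j : ℂ)
    · filter_upwards with t
      refine (hF' x₀ t).lim v (c := fun j : ℕ => (j : ℂ)) ?_
      simp only [Complex.norm_natCast]
      exact tendsto_natCast_atTop_atTop
  have hF'meas : AEStronglyMeasurable (fun t => fderiv ℂ (fun α => F α t) x₀) volume := by
    have h1 : (fun t => fderiv ℂ (fun α => F α t) x₀) = fun t => ∑ i : Fin n,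
        (fderiv ℂ (fun α => F α t) x₀ (Pi.single i 1)) •
          (ContinuousLinearMap.proj i : (Fin n → ℂ) →L[ℂ] ℂ) := by
      funext t
      apply ContinuousLinearMap.ext
      intro v
      have h2 := LinearMap.pi_apply_eq_sum_univ
        (fderiv ℂ (fun α => F α t) x₀ : (Fin n → ℂ) →ₗ[ℂ] ℂ) v
      have h3 : ∀ i : Fin n, (fun j : Fin n => if i = j then (1 : ℂ) else 0) = Pi.single i 1 := by
        intro i
        funext j
        rw [Pi.single_apply]
        simp only [eq_comm]
      simp only [h3] at h2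
      refine h2.trans ?_
      simp [mul_comm]
    rw [h1]
    refine Finset.aestronglyMeasurable_fun_sum _ fun i _ => ?_
    exact (hpart (Pi.single i 1)).smul_const _
  have h := hasFDerivAt_integral_of_dominated_loc_of_lip (μ := volume) (𝕜 := ℂ)
    (F := F) (F' := fun t => fderiv ℂ (fun α => F α t) x₀) (bound := g) (x₀ := x₀)
    (Metric.ball_mem_nhds x₀ one_pos) (Eventually.of_forall hmeas) hint hF'meas (by
      filter_upwards with t
      refine Convex.lipschitzOnWith_of_nnnorm_fderiv_le (𝕜 := ℂ) (fun α _ => hdiff t α) ?_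
        (convex_ball x₀ 1)
      intro α hα
      rw [← NNReal.coe_le_coe, coe_nnnorm, Real.coe_nnabs, abs_of_nonneg (hg0 t)]
      exact hbound t α hα) hg (by
      filter_upwards with t
      exact hF' x₀ t)
  exact h.2.differentiableAt

end Pool.Agent.W440.WH
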