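import Pool.Agent.W440.WH.EvalN

/-!
ONE: the case of the first shift.
-/

set_option autoImplicit false

namespace Pool.Agent.W440.WH

open Pool.Agent.W181.WH

/-- the properties of the filtration which are used -/
structure Fil {B : Type} [Ring B] [Algebra ℂ B] (V : ℕ → ℕ → Submodule ℂ B) : Prop where
  mul : ∀ δ w δ' w' b b', b ∈ V δ w → b' ∈ V δ' w' → b * b' ∈ V (δ + δ') (w + w')
  one : (1 : B) ∈ V 0 0
  mono : ∀ δ w δ' w', δ' ≤ δ → w ≤ w' → V δ w ≤ V δ' w'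

/-- congruence modulo the first step -/
structure Cg {B : Type} [Ring B] [Algebra ℂ B] (V : ℕ → ℕ → Submodule ℂ B) (a b : B) (w : ℕ) :
    Prop where
  l : a ∈ V 0 w
  r : b ∈ V 0 w
  s : a - b ∈ V 1 w

variable {B : Type} [Ring B] [Algebra ℂ B] {V : ℕ → ℕ → Submodule ℂ B}

theorem Cg.mul (hV : Fil V) {a b a' b' : B} {w w' : ℕ} (h : Cg V a b w) (h' : Cg V a' b' w') :
    Cg V (a * a') (b * b') (w + w') := by
  refine ⟨by simpa using hV.mul 0 w 0 w' a a' h.l h'.l, by simpa using hV.mul 0 w 0 w' b b' h.r h'.r,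
    ?_⟩
  have h1 : a * a' - b * b' = (a - b) * a' + b * (a' - b') := by
    rw [sub_mul, mul_sub]
    abel
  rw [h1]
  refine Submodule.add_mem _ ?_ ?_
  · simpa using hV.mul 1 w 0 w' _ _ h.s h'.l
  · simpa using hV.mul 0 w 1 w' _ _ h.r h'.s

theorem Cg.one (hV : Fil V) : Cg V 1 1 0 := by
  refine ⟨hV.one, hV.one, ?_⟩
  rw [sub_self]
  exact Submodule.zero_mem _

theorem Cg.pow (hV : Fil V) {a b : B} {w : ℕ} (h : Cg V a b w) (k : ℕ) :
    Cg V (a ^ k) (b ^ k) (w * k) := by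
  induction k with
  | zero => simpa using Cg.one hV
  | succ k ih =>
    rw [pow_succ, pow_succ, Nat.mul_succ]
    exact Cg.mul hV ih h

theorem Cg.ofFn (hV : Fil V) (k : ℕ) (E E' : Fin k → B) (w a : Fin k → ℕ)
    (h : ∀ i, Cg V (E i) (E' i) (w i)) :
    Cg V (List.ofFn (fun i => E i ^ a i)).prod (List.ofFn (fun i => E' i ^ a i)).prod
      (∑ i, w i * a i) := by
  induction k with
  | zero => simpa using Cg.one hV
  | succ k ih =>
    rw [List.ofFn_succ, List.ofFn_succ, List.prod_cons, List.prod_cons, Fin.sum_univ_succ]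
    exact Cg.mul hV (Cg.pow hV (h 0) _) (ih _ _ _ _ (fun i => h i.succ))

theorem pow_mem_fil (hV : Fil V) {a : B} {w : ℕ} (h : a ∈ V 0 w) (k : ℕ) : a ^ k ∈ V 0 (w * k) := by
  induction k with
  | zero => simpa using hV.one
  | succ k ih =>
    rw [pow_succ, Nat.mul_succ]
    simpa using hV.mul 0 _ 0 _ _ _ ih h

theorem fil_of (hV : S_VMUL) {N : ℕ} (R : Rep N B) (m : Fin N) : Fil (fun δ w => R.V m δ w) := by
  obtain ⟨h1, h2, h3, _⟩ := hV N B R m
  exact ⟨h1, h2, h3⟩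

/-- evaluation through a commutative algebra -/
theorem map_aeval_eq {A : Type} [CommRing A] [Algebra ℂ A] (φ : A →ₐ[ℂ] B) {n : ℕ} (z : A)
    (D : Fin n → A) (g : MvPolynomial (Option (Fin n)) ℂ) :
    φ (MvPolynomial.aeval (fun o : Option (Fin n) => o.elim z D) g) =
      Ph (φ z) (fun i => φ (D i)) 1 g := by
  have hD : ∀ i j, Commute (φ (D i)) (φ (D j)) := by
    intro i j
    show φ (D i) * φ (D j) = φ (D j) * φ (D i)
    rw [← map_mul, ← map_mul, mul_comm]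
  induction g using MvPolynomial.induction_on with
  | C a =>
    rw [MvPolynomial.aeval_C, Ph_C, AlgHom.commutes, Algebra.algebraMap_eq_smul_one]
  | add p q hp hq => rw [map_add, map_add, map_add, hp, hq]
  | mul_X p o hp =>
    rcases o with _ | j
    · rw [map_mul, MvPolynomial.aeval_X, Ph_mul_none, mul_comm, map_mul, hp]
      rfl
    · rw [map_mul, MvPolynomial.aeval_X, Ph_mul_some _ _ hD, map_mul, hp]
      rfl

theorem van' (hN : S_VAN) (n k l : ℕ) (hn : n = k + l) (g : MvPolynomial (Option (Fin n)) ℂ)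
    (hk : 1 ≤ k) (hg : IsG n k g) (A : Type) [CommRing A] [Algebra ℂ A] (c d : ℕ → A)
    (hc0 : c 0 = 1) (hd0 : d 0 = 1) (hc : ∀ i, k < i → c i = 0) (hd : ∀ j, l < j → d j = 0) :
      MvPolynomial.aeval (fun o : Option (Fin n) => o.elim (c 1)
        (fun i => ∑ ab ∈ Finset.HasAntidiagonal.antidiagonal ((i : ℕ) + 1), c ab.1 * d ab.2)) g =
        0 := by
  subst hn
  exact hN k l g hk hg A c d hc0 hd0 hc hd

theorem t_one (hC : S_COEF) (hM : S_COMM) (hR : S_REL) (hV : S_VMUL) (hD : S_DEC) (hN : S_VAN) :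
    S_ONE := by
  intro N B _ _ R m g hg
  obtain ⟨l, hl⟩ : ∃ l, N + 1 = (m : ℕ) + 1 + l := ⟨N - m, by omega⟩
  obtain ⟨hT, hTs, _⟩ := hR N B R
  have hF := fil_of hV R m
  obtain ⟨d1, d2, d3, d4, d5⟩ := hD N B R m l
  let c : ℕ → B := fun i => Dch R.p R.T ((m : ℕ) + 1) i
  let e : ℕ → B := fun j => Dch (fun k => R.p ((m : ℕ) + 1 + k)) (fun k => R.T ((m : ℕ) + 1 + k)) l j
  have hcc : ∀ i j, Commute (c i) (c j) := fun i j => hM B R.p R.T hT _ i j
  have hee : ∀ i j, Commute (e i) (e j) := fun i j => hM B _ _ (hTs _) _ i j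
  have hce : ∀ i j, Commute (c i) (e j) := d2
  let D : Fin (N + 1) → B := fun i => Dch R.p R.T (N + 1) ((i : ℕ) + 1)
  let D0 : Fin (N + 1) → B := fun i =>
    ∑ ab ∈ Finset.HasAntidiagonal.antidiagonal ((i : ℕ) + 1), c ab.1 * e ab.2
  have hZ : R.θ (MvPolynomial.X m) = c 1 := d3.symm
  -- vanishing
  have hvan : Ph (R.θ (MvPolynomial.X m)) D0 1 g = 0 := by
    let s : Set B := Set.range c ∪ Set.range e
    have hs : ∀ a ∈ s, ∀ b ∈ s, a * b = b * a := by
      rintro a (⟨i, rfl⟩ | ⟨i, rfl⟩) b (⟨j, rfl⟩ | ⟨j, rfl⟩)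
      · exact hcc i j
      · exact hce i j
      · exact (hce j i).symm
      · exact hee i j
    letI : CommRing (Algebra.adjoin ℂ s) := Algebra.adjoinCommRingOfComm ℂ hs
    let c' : ℕ → Algebra.adjoin ℂ s := fun i =>
      ⟨c i, Algebra.subset_adjoin (Or.inl ⟨i, rfl⟩)⟩
    let e' : ℕ → Algebra.adjoin ℂ s := fun j =>
      ⟨e j, Algebra.subset_adjoin (Or.inr ⟨j, rfl⟩)⟩
    have h1 := van' hN (N + 1) ((m : ℕ) + 1) l hl g (by omega) hg (Algebra.adjoin ℂ s) c' e'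
      (Subtype.ext (hC B R.p R.T 0 ((m : ℕ) + 1)).2.1)
      (Subtype.ext (hC B _ _ 0 l).2.1)
      (fun i hi => Subtype.ext ((hC B R.p R.T 0 ((m : ℕ) + 1)).1 i hi))
      (fun j hj => Subtype.ext ((hC B _ _ 0 l).1 j hj))
    have h2 := map_aeval_eq (Algebra.adjoin ℂ s).val (c' 1)
      (fun i : Fin (N + 1) =>
        ∑ ab ∈ Finset.HasAntidiagonal.antidiagonal ((i : ℕ) + 1), c' ab.1 * e' ab.2) g
    rw [h1, map_zero] at h2
    rw [hZ]
    have h3 : D0 = fun i : Fin (N + 1) => (Algebra.adjoin ℂ s).val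
        (∑ ab ∈ Finset.HasAntidiagonal.antidiagonal ((i : ℕ) + 1), c' ab.1 * e' ab.2) := by
      funext i
      rw [map_sum]
      rfl
    rw [h3]
    exact h2.symm
  have hCg : ∀ i : Fin (N + 1), Cg (fun δ w => R.V m δ w) (D i) (D0 i) ((i : ℕ) + 1) := by
    intro i
    refine ⟨d4 _ _, ?_, ?_⟩
    · refine Submodule.sum_mem _ fun ab hab => ?_
      have h1 := hF.mul 0 ab.1 0 ab.2 _ _ (d4 ((m : ℕ) + 1) ab.1) (d5 l ab.2)
      rw [Finset.HasAntidiagonal.mem_antidiagonal.1 hab] at h1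
      exact h1
    · have h1 := d1 ((i : ℕ) + 1)
      rw [← hl] at h1
      exact h1
  have hdiff : evalN (R.θ (MvPolynomial.X m)) D g =
      ∑ d ∈ g.support, (g.coeff d) •
        (R.θ (MvPolynomial.X m) ^ (d none) * (MD D d - MD D0 d)) := by
    have h1 : evalN (R.θ (MvPolynomial.X m)) D g =
        Ph (R.θ (MvPolynomial.X m)) D 1 g - Ph (R.θ (MvPolynomial.X m)) D0 1 g := by
      rw [hvan, sub_zero, evalN_eq]
    rw [h1, Ph_eq_sum, Ph_eq_sum, ← Finset.sum_sub_distrib]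
    refine Finset.sum_congr rfl fun d _ => ?_
    rw [mul_one, ← smul_sub, mul_sub]
  show evalN (R.θ (MvPolynomial.X m)) D g ∈ _
  rw [hdiff]
  refine Submodule.sum_mem _ fun d hd => Submodule.smul_mem _ _ ?_
  have h1 : R.θ (MvPolynomial.X m) ∈ R.V m 0 1 := by
    rw [hZ]
    exact d4 _ _
  have h2 := pow_mem_fil hF h1 (d none)
  have h3 := (Cg.ofFn hF (N + 1) D D0 (fun i => (i : ℕ) + 1) (fun i => d (some i)) hCg).s
  have h4 := hF.mul 0 _ 1 _ _ _ h2 h3
  refine hF.mono _ _ _ _ (by omega) ?_ h4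
  have h5 := hg.1 d hd
  omega

end Pool.Agent.W440.WH
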