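import Pool.Agent.W181.WH.Stm

/-!
UNI: the unipotent group.
-/

set_option autoImplicit false

namespace Pool.Agent.W440.WH

open Pool.Agent.W181.WH MeasureTheory Matrix

variable {m : ℕ}

theorem lM_lt (v : LIdx m → ℝ) {i j : Fin m} (h : j < i) : lM v i j = v ⟨(i, j), h⟩ := by
  unfold lM
  rw [dif_pos h]

theorem lM_self (v : LIdx m → ℝ) (i : Fin m) : lM v i i = 1 := by
  unfold lM
  rw [dif_neg (lt_irrefl i), if_pos rfl]

theorem lM_gt (v : LIdx m → ℝ) {i j : Fin m} (h : i < j) : lM v i j = 0 := by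
  unfold lM
  rw [dif_neg h.asymm, if_neg h.ne]

/-- a lower unitriangular matrix is of the form `lM` -/
theorem eq_lM (P : Matrix (Fin m) (Fin m) ℝ) (h0 : ∀ i j, i < j → P i j = 0) (h1 : ∀ i, P i i = 1) :
    P = lM (fun p : LIdx m => P p.1.1 p.1.2) := by
  ext i j
  rcases lt_trichotomy i j with h | h | h
  · rw [h0 i j h, lM_gt _ h]
  · subst h
    rw [h1, lM_self]
  · rw [lM_lt _ h]

theorem mul_gt (u v : LIdx m → ℝ) {i j : Fin m} (h : i < j) : (lM u * lM v) i j = 0 := by
  rw [Matrix.mul_apply]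
  refine Finset.sum_eq_zero fun k _ => ?_
  rcases lt_or_ge i k with h1 | h1
  · rw [lM_gt u h1, zero_mul]
  · rw [lM_gt v (lt_of_le_of_lt h1 h), mul_zero]

theorem mul_self' (u v : LIdx m → ℝ) (i : Fin m) : (lM u * lM v) i i = 1 := by
  rw [Matrix.mul_apply, Finset.sum_eq_single i]
  · rw [lM_self, lM_self, one_mul]
  · intro k _ hk
    rcases lt_or_gt_of_ne hk with h1 | h1
    · rw [lM_gt v h1, mul_zero]
    · rw [lM_gt u h1, zero_mul]
  · intro h
    exact absurd (Finset.mem_univ i) h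

theorem lM_mulC (u v : LIdx m → ℝ) : lM (mulC u v) = lM u * lM v :=
  (eq_lM _ (fun _ _ h => mul_gt u v h) (fun i => mul_self' u v i)).symm

theorem mulC_sub (u v : LIdx m → ℝ) (p : LIdx m) (hp : (p.1.1 : ℕ) = (p.1.2 : ℕ) + 1) :
    mulC u v p = u p + v p := by
  obtain ⟨⟨i, j⟩, hij⟩ := p
  have hij' : j < i := hij
  show (lM u * lM v) i j = _
  rw [Matrix.mul_apply, Finset.sum_eq_add i j (ne_of_gt hij')]
  · rw [lM_self u, lM_self v, lM_lt v hij', lM_lt u hij']
    ring
  · intro k _ hk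
    rcases lt_or_ge i k with h1 | h1
    · rw [lM_gt u h1, zero_mul]
    · rcases lt_or_ge k j with h2 | h2
      · rw [lM_gt v h2, mul_zero]
      · exfalso
        have h3 : (k : ℕ) ≤ i := h1
        have h4 : (j : ℕ) ≤ k := h2
        have h5 : (k : ℕ) ≠ i := fun h => hk.1 (Fin.ext h)
        have h6 : (k : ℕ) ≠ j := fun h => hk.2 (Fin.ext h)
        simp only at hp
        omega
  · intro h
    exact absurd (Finset.mem_univ _) h
  · intro h
    exact absurd (Finset.mem_univ _) h

theorem ch_mulC (u v : LIdx m → ℝ) : ch (mulC u v) = ch u * ch v := by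
  unfold ch
  rw [← Complex.exp_add, ← mul_add, ← Complex.ofReal_add, ← Finset.sum_add_distrib]
  congr 3
  refine Finset.sum_congr rfl fun p _ => ?_
  by_cases hp : (p.1.1 : ℕ) = (p.1.2 : ℕ) + 1
  · rw [if_pos hp, if_pos hp, if_pos hp, mulC_sub u v p hp]
  · rw [if_neg hp, if_neg hp, if_neg hp, add_zero]

theorem lM_tri (u : LIdx m → ℝ) : (lM u).BlockTriangular OrderDual.toDual := by
  intro i j h
  exact lM_gt u (OrderDual.toDual_lt_toDual.1 h)

theorem det_lM (u : LIdx m → ℝ) : (lM u).det = 1 := by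
  rw [Matrix.det_of_isLowerTriangular _ (lM_tri u)]
  exact Finset.prod_eq_one fun i _ => lM_self u i

theorem isUnit_lM (u : LIdx m → ℝ) : IsUnit (lM u).det := by
  rw [det_lM]
  exact isUnit_one

theorem inv_gt (u : LIdx m → ℝ) {i j : Fin m} (h : i < j) : (lM u)⁻¹ i j = 0 := by
  letI := (lM u).invertibleOfIsUnitDet (isUnit_lM u)
  exact (Matrix.blockTriangular_inv_of_blockTriangular (lM_tri u)) (OrderDual.toDual_lt_toDual.2 h)

theorem inv_self' (u : LIdx m → ℝ) (i : Fin m) : (lM u)⁻¹ i i = 1 := by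
  have h := congrFun (congrFun (Matrix.mul_nonsing_inv _ (isUnit_lM u)) i) i
  rw [Matrix.mul_apply, Matrix.one_apply_eq, Finset.sum_eq_single i] at h
  · rw [lM_self, one_mul] at h
    exact h
  · intro k _ hk
    rcases lt_or_gt_of_ne hk with h1 | h1
    · rw [inv_gt u h1, mul_zero]
    · rw [lM_gt u h1, zero_mul]
  · intro h
    exact absurd (Finset.mem_univ i) h

theorem lM_invC (u : LIdx m → ℝ) : lM (invC u) = (lM u)⁻¹ :=
  (eq_lM _ (fun _ _ h => inv_gt u h) (fun i => inv_self' u i)).symm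

theorem continuous_lM : Continuous (lM : (LIdx m → ℝ) → Matrix (Fin m) (Fin m) ℝ) := by
  refine continuous_matrix fun i j => ?_
  by_cases h : j < i
  · have h1 : (fun v : LIdx m → ℝ => lM v i j) = fun v => v ⟨(i, j), h⟩ := by
      funext v
      exact lM_lt v h
    rw [h1]
    exact continuous_apply _
  · have h1 : (fun v : LIdx m → ℝ => lM v i j) = fun _ => if i = j then 1 else 0 := by
      funext v
      unfold lM
      rw [dif_neg h]
    rw [h1]
    exact continuous_const

theorem continuous_invC : Continuous (invC : (LIdx m → ℝ) → (LIdx m → ℝ)) := by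
  refine continuous_pi fun p => ?_
  have h1 : (fun u : LIdx m → ℝ => invC u p) = fun u => (lM u).adjugate p.1.1 p.1.2 := by
    funext u
    unfold invC
    rw [Matrix.inv_def, det_lM]
    simp
  rw [h1]
  exact (continuous_lM.matrix_adjugate).matrix_elem _ _

/-- a unitriangular matrix preserves Lebesgue measure -/
theorem mp_of {ι : Type} [Fintype ι] [DecidableEq ι] (A : Matrix ι ι ℝ) (hA : A.det = 1)
    (c : ι → ℝ) (f : (ι → ℝ) → ι → ℝ) (hf : ∀ v, f v = A.mulVec v + c) :
    MeasurePreserving f volume volume := by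
  have h1 : MeasurePreserving (Matrix.toLin' A : (ι → ℝ) → ι → ℝ) volume volume := by
    refine ⟨(LinearMap.continuous_of_finiteDimensional _).measurable, ?_⟩
    have h2 := Real.map_matrix_volume_pi_eq_smul_volume_pi (M := A) (by rw [hA]; exact one_ne_zero)
    rw [hA] at h2
    simpa using h2
  have h3 : MeasurePreserving (fun x : ι → ℝ => x + c) volume volume :=
    measurePreserving_add_right volume c
  have h4 := h3.comp h1
  have h5 : f = (fun x : ι → ℝ => x + c) ∘ (Matrix.toLin' A : (ι → ℝ) → ι → ℝ) := by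
    funext v
    rw [hf, Function.comp, Matrix.toLin'_apply]
  rw [h5]
  exact h4

theorem det_block {ι α : Type} [Fintype ι] [DecidableEq ι] [DecidableEq α] [LinearOrder α]
    (A : Matrix ι ι ℝ) (b : ι → α) (hA : A.BlockTriangular b)
    (h1 : ∀ i j, b i = b j → A i j = if i = j then 1 else 0) : A.det = 1 := by
  rw [hA.det]
  refine Finset.prod_eq_one fun a _ => ?_
  have h2 : A.toSquareBlock b a = 1 := by
    ext ⟨i, hi⟩ ⟨j, hj⟩
    show A i j = _
    rw [h1 i j (hi.trans hj.symm), Matrix.one_apply]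
    simp only [Subtype.mk.injEq]
  rw [h2, Matrix.det_one]

theorem sum_LIdx (f : LIdx m → ℝ) :
    ∑ q, f q = ∑ k : Fin m, ∑ l : Fin m, if h : l < k then f ⟨(k, l), h⟩ else 0 := by
  have h2 : ∑ k : Fin m, ∑ l : Fin m, (if h : l < k then f ⟨(k, l), h⟩ else 0) =
      ∑ p : Fin m × Fin m, if h : p.2 < p.1 then f ⟨(p.1, p.2), h⟩ else 0 :=
    (Fintype.sum_prod_type (fun p : Fin m × Fin m =>
      if h : p.2 < p.1 then f ⟨(p.1, p.2), h⟩ else 0)).symm
  rw [h2]
  have h1 : ∑ q : LIdx m, f q = ∑ q : LIdx m,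
      (fun p : Fin m × Fin m => if h : p.2 < p.1 then f ⟨(p.1, p.2), h⟩ else 0) q.1 := by
    refine Finset.sum_congr rfl fun q _ => ?_
    simp only
    rw [dif_pos q.2]
  rw [h1, ← Finset.sum_subtype (Finset.univ.filter (fun p : Fin m × Fin m => p.2 < p.1))
    (by simp) (fun p : Fin m × Fin m => if h : p.2 < p.1 then f ⟨(p.1, p.2), h⟩ else 0)]
  refine Finset.sum_subset (Finset.filter_subset _ _) fun p _ hp => ?_
  rw [dif_neg (by simpa using hp)]

/-- the linear part of a left translation -/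
noncomputable def AL (u : LIdx m → ℝ) : Matrix (LIdx m) (LIdx m) ℝ :=
  fun p q => if q.1.2 = p.1.2 then lM u p.1.1 q.1.1 else 0

/-- the linear part of a right translation -/
noncomputable def AR (u : LIdx m → ℝ) : Matrix (LIdx m) (LIdx m) ℝ :=
  fun p q => if q.1.1 = p.1.1 then lM u q.1.2 p.1.2 else 0

theorem det_AL (u : LIdx m → ℝ) : (AL u).det = 1 := by
  refine det_block (AL u) (fun q : LIdx m => OrderDual.toDual q.1.1) ?_ ?_
  · intro p q h
    unfold AL
    have h1 : p.1.1 < q.1.1 := OrderDual.toDual_lt_toDual.1 h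
    rw [lM_gt u h1]
    simp
  · intro p q h
    unfold AL
    have h1 : p.1.1 = q.1.1 := OrderDual.toDual.injective h
    rw [← h1, lM_self]
    by_cases h2 : q.1.2 = p.1.2
    · rw [if_pos h2, if_pos (Subtype.ext (Prod.ext h1 h2.symm))]
    · rw [if_neg h2, if_neg]
      rintro rfl
      exact h2 rfl

theorem det_AR (u : LIdx m → ℝ) : (AR u).det = 1 := by
  refine det_block (AR u) (fun q : LIdx m => q.1.2) ?_ ?_
  · intro p q h
    unfold AR
    have h1 : q.1.2 < p.1.2 := h
    rw [lM_gt u h1]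
    simp
  · intro p q h
    unfold AR
    have h1 : p.1.2 = q.1.2 := h
    rw [← h1, lM_self]
    by_cases h2 : q.1.1 = p.1.1
    · rw [if_pos h2, if_pos (Subtype.ext (Prod.ext h2.symm h1))]
    · rw [if_neg h2, if_neg]
      rintro rfl
      exact h2 rfl

theorem mulC_left (u v : LIdx m → ℝ) : mulC u v = (AL u).mulVec v + u := by
  funext p
  obtain ⟨⟨i, j⟩, hij⟩ := p
  have hij' : j < i := hij
  show (lM u * lM v) i j = (AL u).mulVec v ⟨(i, j), hij⟩ + u ⟨(i, j), hij⟩
  have h1 : (AL u).mulVec v ⟨(i, j), hij⟩ =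
      ∑ k : Fin m, if h : j < k then lM u i k * v ⟨(k, j), h⟩ else 0 := by
    unfold Matrix.mulVec dotProduct
    rw [sum_LIdx]
    refine Finset.sum_congr rfl fun k _ => ?_
    rw [Finset.sum_eq_single j]
    · unfold AL
      simp
    · intro l _ hl
      unfold AL
      simp only
      rw [if_neg hl]
      simp
    · intro h
      exact absurd (Finset.mem_univ j) h
  have h2 : u ⟨(i, j), hij⟩ = ∑ k : Fin m, if k = j then u ⟨(i, j), hij⟩ else 0 := by
    rw [Finset.sum_ite_eq' Finset.univ j, if_pos (Finset.mem_univ j)]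
  rw [h1, h2, ← Finset.sum_add_distrib, Matrix.mul_apply]
  refine Finset.sum_congr rfl fun k _ => ?_
  rcases lt_trichotomy k j with h | h | h
  · rw [lM_gt v h, dif_neg h.asymm, if_neg h.ne]
    simp
  · subst h
    rw [dif_neg (lt_irrefl k), if_pos rfl, lM_self, lM_lt u hij', mul_one, zero_add]
  · rw [dif_pos h, if_neg h.ne', lM_lt v h, add_zero]

theorem mulC_right (u v : LIdx m → ℝ) : mulC v u = (AR u).mulVec v + u := by
  funext p
  obtain ⟨⟨i, j⟩, hij⟩ := p
  have hij' : j < i := hij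
  show (lM v * lM u) i j = (AR u).mulVec v ⟨(i, j), hij⟩ + u ⟨(i, j), hij⟩
  have h1 : (AR u).mulVec v ⟨(i, j), hij⟩ =
      ∑ l : Fin m, if h : l < i then lM u l j * v ⟨(i, l), h⟩ else 0 := by
    unfold Matrix.mulVec dotProduct
    rw [sum_LIdx, Finset.sum_eq_single i]
    · unfold AR
      simp
    · intro k _ hk
      refine Finset.sum_eq_zero fun l _ => ?_
      unfold AR
      simp only
      rw [if_neg hk]
      simp
    · intro h
      exact absurd (Finset.mem_univ i) h
  have h2 : u ⟨(i, j), hij⟩ = ∑ k : Fin m, if k = i then u ⟨(i, j), hij⟩ else 0 := by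
    rw [Finset.sum_ite_eq' Finset.univ i, if_pos (Finset.mem_univ i)]
  rw [h1, h2, ← Finset.sum_add_distrib, Matrix.mul_apply]
  refine Finset.sum_congr rfl fun k _ => ?_
  rcases lt_trichotomy k i with h | h | h
  · rw [dif_pos h, if_neg h.ne, lM_lt v h, add_zero, mul_comm]
  · subst h
    rw [dif_neg (lt_irrefl k), if_pos rfl, lM_self, lM_lt u hij', one_mul, zero_add]
  · rw [lM_gt v h, dif_neg h.asymm, if_neg h.ne']
    simp

theorem t_uni : S_UNI := by
  intro m
  refine ⟨fun u v => ⟨lM_mulC u v, ch_mulC u v⟩, fun u => ?_, continuous_invC, fun u => ?_,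
    fun u => ?_, fun u => ?_⟩
  · rw [lM_invC]
    exact ⟨Matrix.nonsing_inv_mul _ (isUnit_lM u), Matrix.mul_nonsing_inv _ (isUnit_lM u)⟩
  · exact mp_of (AL u) (det_AL u) u _ (fun v => mulC_left u v)
  · exact mp_of (AR u) (det_AR u) u _ (fun v => mulC_right u v)
  · exact mp_of (lM u) (det_lM u) 0 _ (fun v => (add_zero _).symm)

end Pool.Agent.W440.WH
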