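import Pool.Agent.W181.WH.Stm

/-!
Ordered evaluation of polynomials in a noncommutative algebra.
-/

set_option autoImplicit false

namespace Pool.Agent.W440.WH

open Pool.Agent.W181.WH

variable {B : Type} [Ring B] [Algebra ℂ B] {n : ℕ}

/-- the monomial in the `D i` -/
def MD (D : Fin n → B) (d : Option (Fin n) →₀ ℕ) : B :=
  (List.ofFn (fun i => D i ^ (d (some i)))).prod

/-- `g ↦ ∑ coeff z^k x M(D)` -/
noncomputable def Ph (z : B) (D : Fin n → B) (x : B) :
    MvPolynomial (Option (Fin n)) ℂ →ₗ[ℂ] B :=
  (MvPolynomial.basisMonomials (Option (Fin n)) ℂ).constr ℂ (fun d => z ^ (d none) * x * MD D d)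

theorem Ph_monomial (z : B) (D : Fin n → B) (x : B) (d : Option (Fin n) →₀ ℕ) :
    Ph z D x (MvPolynomial.monomial d 1) = z ^ (d none) * x * MD D d := by
  unfold Ph
  have h := (MvPolynomial.basisMonomials (Option (Fin n)) ℂ).constr_basis ℂ
    (fun d => z ^ (d none) * x * MD D d) d
  rw [MvPolynomial.coe_basisMonomials] at h
  exact h

theorem Ph_eq_sum (z : B) (D : Fin n → B) (x : B) (g : MvPolynomial (Option (Fin n)) ℂ) :
    Ph z D x g = ∑ d ∈ g.support, (g.coeff d) • (z ^ (d none) * x * MD D d) := by
  conv_lhs => rw [MvPolynomial.as_sum g]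
  rw [map_sum]
  refine Finset.sum_congr rfl fun d _ => ?_
  have h : MvPolynomial.monomial d (g.coeff d) =
      (g.coeff d) • (MvPolynomial.monomial d (1 : ℂ)) := by
    rw [MvPolynomial.smul_monomial, smul_eq_mul, mul_one]
  rw [h, map_smul, Ph_monomial]

theorem evalN_eq (z : B) (D : Fin n → B) (g : MvPolynomial (Option (Fin n)) ℂ) :
    evalN z D g = Ph z D 1 g := by
  rw [Ph_eq_sum]
  unfold evalN MD
  refine Finset.sum_congr rfl fun d _ => ?_
  rw [mul_one]

theorem MD_zero (D : Fin n → B) : MD D 0 = 1 := by
  unfold MD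
  simp

theorem Ph_C (z : B) (D : Fin n → B) (x : B) (a : ℂ) : Ph z D x (MvPolynomial.C a) = a • x := by
  have h : (MvPolynomial.C a : MvPolynomial (Option (Fin n)) ℂ) =
      a • MvPolynomial.monomial 0 (1 : ℂ) := by
    rw [MvPolynomial.smul_monomial, smul_eq_mul, mul_one]
    rfl
  rw [h, map_smul, Ph_monomial, MD_zero]
  simp

theorem Ph_mul_none (z : B) (D : Fin n → B) (x : B) (g : MvPolynomial (Option (Fin n)) ℂ) :
    Ph z D x (g * MvPolynomial.X none) = z * Ph z D x g := by
  induction g using MvPolynomial.induction_on' with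
  | monomial d a =>
    have h1 : MvPolynomial.monomial d a * (MvPolynomial.X none : MvPolynomial (Option (Fin n)) ℂ) =
        a • MvPolynomial.monomial (d + Finsupp.single none 1) 1 := by
      rw [MvPolynomial.X, MvPolynomial.monomial_mul, MvPolynomial.smul_monomial, smul_eq_mul,
        mul_one]
    have h2 : MvPolynomial.monomial d a = a • MvPolynomial.monomial d (1 : ℂ) := by
      rw [MvPolynomial.smul_monomial, smul_eq_mul, mul_one]
    rw [h1, h2, map_smul, map_smul, Ph_monomial, Ph_monomial]
    have h3 : MD D (d + Finsupp.single none 1) = MD D d := by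
      unfold MD
      simp
    rw [h3]
    simp only [Finsupp.add_apply, Finsupp.single_eq_same]
    rw [pow_succ', mul_smul_comm, mul_assoc, mul_assoc, mul_assoc]
  | add p q hp hq => rw [add_mul, map_add, map_add, hp, hq, mul_add]

theorem MD_add (D : Fin n → B) (hD : ∀ i j, Commute (D i) (D j)) (d e : Option (Fin n) →₀ ℕ) :
    MD D (d + e) = MD D d * MD D e := by
  unfold MD
  have h : ∀ (k : ℕ) (E : Fin k → B) (hE : ∀ i j, Commute (E i) (E j)) (a b : Fin k → ℕ),
      (List.ofFn (fun i => E i ^ (a i + b i))).prod =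
        (List.ofFn (fun i => E i ^ (a i))).prod * (List.ofFn (fun i => E i ^ (b i))).prod := by
    intro k
    induction k with
    | zero => intro E hE a b; simp
    | succ k ih =>
      intro E hE a b
      rw [List.ofFn_succ, List.ofFn_succ, List.ofFn_succ, List.prod_cons, List.prod_cons,
        List.prod_cons, ih (fun i => E i.succ) (fun i j => hE _ _) (fun i => a i.succ)
          (fun i => b i.succ), pow_add]
      have h2 : Commute (E 0 ^ b 0) (List.ofFn (fun i : Fin k => E i.succ ^ (a i.succ))).prod := by
        apply Commute.list_prod_right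
        intro y hy
        rw [List.mem_ofFn'] at hy
        obtain ⟨i, rfl⟩ := hy
        exact (hE _ _).pow_pow _ _
      rw [mul_assoc, ← mul_assoc (E 0 ^ b 0), h2.eq]
      simp only [mul_assoc]
  have h1 := h n D hD (fun i => d (some i)) (fun i => e (some i))
  simpa only [Finsupp.add_apply] using h1

theorem MD_single (D : Fin n → B) (j : Fin n) : MD D (Finsupp.single (some j) 1) = D j := by
  unfold MD
  have h : ∀ (k : ℕ) (E : Fin k → B) (j : Fin k),
      (List.ofFn (fun i => E i ^ (if j = i then 1 else 0))).prod = E j := by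
    intro k
    induction k with
    | zero => intro E j; exact j.elim0
    | succ k ih =>
      intro E j
      rw [List.ofFn_succ, List.prod_cons]
      refine Fin.cases ?_ (fun j => ?_) j
      · have h1 : (fun i : Fin k => E i.succ ^ (if (0 : Fin (k + 1)) = i.succ then 1 else 0)) =
            fun _ => 1 := by
          funext i
          rw [if_neg (Fin.succ_ne_zero i).symm, pow_zero]
        rw [h1]
        simp
      · have h1 : (fun i : Fin k => E i.succ ^ (if j.succ = i.succ then 1 else 0)) =
            fun i : Fin k => E i.succ ^ (if j = i then 1 else 0) := by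
          funext i
          simp only [Fin.succ_inj]
        rw [h1, ih (fun i => E i.succ) j, if_neg (Fin.succ_ne_zero j), pow_zero, one_mul]
  have h1 := h n D j
  have h2 : (fun i : Fin n => D i ^ ((Finsupp.single (some j) 1 : Option (Fin n) →₀ ℕ) (some i))) =
      fun i => D i ^ (if j = i then 1 else 0) := by
    funext i
    congr 1
    rw [Finsupp.single_apply]
    simp only [Option.some.injEq]
  rw [h2]
  exact h1

theorem Ph_mul_some (z : B) (D : Fin n → B) (hD : ∀ i j, Commute (D i) (D j)) (x : B)
    (g : MvPolynomial (Option (Fin n)) ℂ) (j : Fin n) :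
    Ph z D x (g * MvPolynomial.X (some j)) = Ph z D x g * D j := by
  induction g using MvPolynomial.induction_on' with
  | monomial d a =>
    have h1 : MvPolynomial.monomial d a * (MvPolynomial.X (some j) : MvPolynomial (Option (Fin n)) ℂ) =
        a • MvPolynomial.monomial (d + Finsupp.single (some j) 1) 1 := by
      rw [MvPolynomial.X, MvPolynomial.monomial_mul, MvPolynomial.smul_monomial, smul_eq_mul,
        mul_one]
    have h2 : MvPolynomial.monomial d a = a • MvPolynomial.monomial d (1 : ℂ) := by
      rw [MvPolynomial.smul_monomial, smul_eq_mul, mul_one]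
    rw [h1, h2, map_smul, map_smul, Ph_monomial, Ph_monomial, MD_add D hD, MD_single]
    have h3 : (d + Finsupp.single (some j) 1 : Option (Fin n) →₀ ℕ) none = d none := by
      rw [Finsupp.add_apply, Finsupp.single_apply, if_neg (by simp), add_zero]
    rw [h3, smul_mul_assoc, mul_assoc (z ^ d none * x)]
  | add p q hp hq => rw [add_mul, map_add, map_add, hp, hq, add_mul]

/-- composition -/
theorem Ph_mul (z : B) (D : Fin n → B) (hD : ∀ i j, Commute (D i) (D j)) (x : B)
    (g h : MvPolynomial (Option (Fin n)) ℂ) :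
    Ph z D x (g * h) = Ph z D (Ph z D x g) h := by
  induction h using MvPolynomial.induction_on with
  | C a => rw [Ph_C, mul_comm, ← MvPolynomial.smul_eq_C_mul, map_smul]
  | add p q hp hq => rw [mul_add, map_add, map_add, hp, hq]
  | mul_X p o hp =>
    rw [← mul_assoc]
    rcases o with _ | j
    · rw [Ph_mul_none, Ph_mul_none, hp]
    · rw [Ph_mul_some z D hD, Ph_mul_some z D hD, hp]

/-- transfer through an operator -/
theorem Ph_transfer (z z' b : B) (D : Fin n → B) (h : z * b = b * z')
    (g : MvPolynomial (Option (Fin n)) ℂ) : Ph z D b g = b * Ph z' D 1 g := by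
  rw [Ph_eq_sum, Ph_eq_sum, Finset.mul_sum]
  refine Finset.sum_congr rfl fun d _ => ?_
  rw [mul_smul_comm, mul_one]
  congr 1
  have h1 : ∀ k : ℕ, z ^ k * b = b * z' ^ k := by
    intro k
    induction k with
    | zero => simp
    | succ k ih => rw [pow_succ, mul_assoc, h, ← mul_assoc, ih, mul_assoc, ← pow_succ]
  rw [h1, mul_assoc]

theorem Ph_add_arg (z : B) (D : Fin n → B) (x y : B) (g : MvPolynomial (Option (Fin n)) ℂ) :
    Ph z D (x + y) g = Ph z D x g + Ph z D y g := by
  rw [Ph_eq_sum, Ph_eq_sum, Ph_eq_sum, ← Finset.sum_add_distrib]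
  refine Finset.sum_congr rfl fun d _ => ?_
  rw [mul_add, add_mul, smul_add]

theorem Ph_smul_arg (z : B) (D : Fin n → B) (x : B) (c : ℂ) (g : MvPolynomial (Option (Fin n)) ℂ) :
    Ph z D (c • x) g = c • Ph z D x g := by
  rw [Ph_eq_sum, Ph_eq_sum, Finset.smul_sum]
  refine Finset.sum_congr rfl fun d _ => ?_
  rw [mul_smul_comm, smul_mul_assoc, smul_comm]

theorem Ph_zero_arg (z : B) (D : Fin n → B) (g : MvPolynomial (Option (Fin n)) ℂ) :
    Ph z D 0 g = 0 := by
  rw [Ph_eq_sum]
  refine Finset.sum_eq_zero fun d _ => ?_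
  rw [mul_zero, zero_mul, smul_zero]

/-- the shift of `z` -/
theorem Ph_shZ (z : B) (D : Fin n → B) (hD : ∀ i j, Commute (D i) (D j)) (i : ℕ)
    (g : MvPolynomial (Option (Fin n)) ℂ) :
    Ph z D 1 (shZ g i) = Ph (z + algebraMap ℂ B (i : ℂ)) D 1 g := by
  induction g using MvPolynomial.induction_on with
  | C a =>
    have h : shZ (MvPolynomial.C a : MvPolynomial (Option (Fin n)) ℂ) i = MvPolynomial.C a := by
      unfold shZ
      rw [MvPolynomial.aeval_C]
      rfl
    rw [h, Ph_C, Ph_C]
  | add p q hp hq =>
    have h : shZ (p + q) i = shZ p i + shZ q i := by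
      unfold shZ
      rw [map_add]
    rw [h, map_add, map_add, hp, hq]
  | mul_X p o hp =>
    have h : shZ (p * MvPolynomial.X o) i = shZ p i * shZ (MvPolynomial.X o) i := by
      unfold shZ
      rw [map_mul]
    rw [h]
    rcases o with _ | j
    · have h2 : shZ (MvPolynomial.X none : MvPolynomial (Option (Fin n)) ℂ) i =
          MvPolynomial.X none + MvPolynomial.C (i : ℂ) := by
        unfold shZ
        rw [MvPolynomial.aeval_X]
        rfl
      rw [h2, mul_add, map_add, Ph_mul_none, Ph_mul_none, mul_comm (shZ p i) (MvPolynomial.C _),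
        ← MvPolynomial.smul_eq_C_mul, map_smul, hp, add_mul, Algebra.smul_def]
    · have h2 : shZ (MvPolynomial.X (some j) : MvPolynomial (Option (Fin n)) ℂ) i =
          MvPolynomial.X (some j) := by
        unfold shZ
        rw [MvPolynomial.aeval_X]
        rfl
      rw [h2, Ph_mul_some z D hD, Ph_mul_some _ D hD, hp]

end Pool.Agent.W440.WH
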